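import Pool.Agent.MP_1e5511_al.Mg.Main

set_option autoImplicit false

namespace Pool.Agent.Results.MP_1e5511_al.CompactSpecial

open Pool.Agent.MP_1e5511_al

/-- A finitely presented diagram group that embeds into a right-angled Artin group is the
fundamental group of a compact special cube complex. -/
theorem result (A R : Type) (side : R → Bool → List A) (hne : ∀ r b, side r b ≠ [])
    (w : List A) (hw : w ≠ []) (G : Type) [Group G]
    (hG : Nonempty (G ≃* DiagramGroup side w)) (hfp : Group.IsFinitelyPresented G)
    (hraag : ∃ (V : Type) (Γ : SimpleGraph V) (f : G →* RAAG Γ), Function.Injective f) :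
    ∃ (X : CubeComplex) (v : X.cell 0), X.Compact ∧ X.Connected ∧ X.Special ∧
      Nonempty (G ≃* X.Pi1 v) :=
  main side hne w G hG hfp hraag

end Pool.Agent.Results.MP_1e5511_al.CompactSpecial
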